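import Mathlib

set_option autoImplicit false

namespace Pool.Agent.Results.MP_e6e7b2_al.Ans

open MvPolynomial in
lemma poly {n : ℕ} (N : Fin n → MvPolynomial (Fin n) ℂ)
    (h : ∀ i, aeval (fun j => X j - N j) (N i) = N i) :
    IsNilpotent (Matrix.of fun i j => pderiv j (N i)) := by
  have h1 : ∀ (k : ℕ) i, aeval (fun j => X j - (k : MvPolynomial (Fin n) ℂ) * N j) (N i) = N i := by
    intro k
    induction k with
    | zero => simp
    | succ k ih =>
      intro i
      conv_rhs => rw [← ih i, ← h i, ← AlgHom.comp_apply, comp_aeval]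
      congr 2
      funext j
      simp [ih, -aeval_eq_bind₁]; ring
  have ch : ∀ (f : Fin n → MvPolynomial (Fin n) ℂ) j (p : MvPolynomial (Fin n) ℂ),
      pderiv j (aeval f p) = ∑ l, aeval f (pderiv l p) * pderiv j (f l) := by
    intro f j p
    induction p using MvPolynomial.induction_on with
    | C a => simp
    | add p q h1 h2 => simp only [map_add, h1, h2, add_mul, Finset.sum_add_distrib]
    | mul_X p i h1 =>
      simp [h1, add_mul, Finset.sum_add_distrib, Pi.single_apply, Finset.mul_sum, mul_assoc,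
        apply_ite, -aeval_eq_bind₁]
  obtain ⟨J, hJ⟩ : ∃ J, J = Matrix.of fun i j => pderiv j (N i) := ⟨_, rfl⟩
  obtain ⟨A, e⟩ : ∃ A : Fin n → Fin n → Polynomial (MvPolynomial (Fin n) ℂ), ∀ (k : ℕ) i l,
      Polynomial.eval (k : MvPolynomial (Fin n) ℂ) (A i l) =
        aeval (fun j => X j - (k : MvPolynomial (Fin n) ℂ) * N j) (J i l) := by
    refine ⟨fun i l => aeval (fun j => Polynomial.C (X j) - Polynomial.X * Polynomial.C (N j))
      (J i l), fun k i l => ?_⟩
    beta_reduce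
    induction J i l using MvPolynomial.induction_on with
    | C a => rw [aeval_C, aeval_C, Polynomial.algebraMap_apply, Polynomial.eval_C]
    | add p q h1 h2 => rw [map_add, map_add, Polynomial.eval_add, h1, h2]
    | mul_X p i h1 =>
      rw [map_mul, map_mul, Polynomial.eval_mul, h1, aeval_X, aeval_X]
      simp only [Polynomial.eval_sub, Polynomial.eval_mul, Polynomial.eval_X, Polynomial.eval_C]
  have h2 : ∀ i j, A i j - Polynomial.X * ∑ l, A i l * Polynomial.C (J l j) - Polynomial.C (J i j)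
      = 0 := fun i j => by
    refine Polynomial.eq_zero_of_infinite_isRoot _ (Set.infinite_of_injective_forall_mem
      (f := fun k : ℕ => (k : MvPolynomial (Fin n) ℂ)) Nat.cast_injective fun k => ?_)
    have := ch (fun j => X j - (k : MvPolynomial (Fin n) ℂ) * N j) j (N i)
    rw [h1] at this
    simp only [Set.mem_setOf_eq, Polynomial.IsRoot, Polynomial.eval_sub, Polynomial.eval_mul,
      Polynomial.eval_X, Polynomial.eval_C, Polynomial.eval_finset_sum, e]
    simp only [hJ, Matrix.of_apply, sub_eq_zero]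
    refine Eq.trans ?_ this.symm
    simp [mul_sub, Finset.sum_sub_distrib, Pi.single_apply, Finset.mul_sum, mul_left_comm,
      -aeval_eq_bind₁]
  rw [← hJ]
  clear e hJ ch h1 h
  have h3 : ∀ m i j, (A i j).coeff m = (J ^ (m + 1)) i j := by
    intro m
    induction m with
    | zero => intro i j; simpa [sub_eq_zero] using congrArg (Polynomial.coeff · 0) (h2 i j)
    | succ m ih =>
      intro i j
      have := congrArg (Polynomial.coeff · (m + 1)) (h2 i j)
      rw [pow_succ, Matrix.mul_apply]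
      simpa [sub_eq_zero, ih, Polynomial.coeff_C] using this
  refine ⟨(Finset.univ.sup fun q : Fin n × Fin n => (A q.1 q.2).natDegree) + 1 + 1, ?_⟩
  ext1 i j
  rw [← h3]
  exact Polynomial.coeff_eq_zero_of_natDegree_lt (Nat.lt_succ_of_le (Finset.le_sup
    (f := fun q : Fin n × Fin n => (A q.1 q.2).natDegree) (Finset.mem_univ (i, j))))

open MvPowerSeries

noncomputable def Hes {n : ℕ} (P : MvPowerSeries (Fin n) ℂ) :
    Matrix (Fin n) (Fin n) (MvPowerSeries (Fin n) ℂ) :=
  Matrix.of fun i j => pderiv ℂ i (pderiv ℂ j P)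

def SelfInv {n : ℕ} (P : MvPowerSeries (Fin n) ℂ) : Prop :=
  2 ≤ P.order ∧ IsNilpotent ((Hes P).map constantCoeff) ∧
  (∀ i, subst (fun j => X j + pderiv ℂ j P) (X i - pderiv ℂ i P) = (X i : MvPowerSeries (Fin n) ℂ)) ∧
  ∀ i, subst (fun j => X j - pderiv ℂ j P) (X i + pderiv ℂ i P) = (X i : MvPowerSeries (Fin n) ℂ)

abbrev S := MvPowerSeries (Fin 3) ℂ

noncomputable def s : S := (1 + X 0 - C Complex.I * X 1)⁻¹

lemma hs : s * (1 + X 0 - C Complex.I * X 1) = 1 := MvPowerSeries.inv_mul_cancel _ (by simp)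

lemma II : (C Complex.I : S) ^ 2 = -1 := by rw [← map_pow]; simp

noncomputable def ph : S := X 0 + C Complex.I * X 1 + X 2 ^ 2 * s

lemma dph : pderiv ℂ 0 ph = 1 - (X 2 * s) ^ 2 ∧
    pderiv ℂ 1 ph = C Complex.I * (1 + (X 2 * s) ^ 2) ∧ pderiv ℂ 2 ph = 2 * (X 2 * s) := by
  have := fun i => (pderiv ℂ i).leibniz_of_mul_eq_one hs
  simp [ph, Derivation.leibniz, Derivation.leibniz_pow, this, pderiv_X]
  refine ⟨by ring, by ring, by ring⟩

lemma ds : pderiv ℂ 0 s = -s ^ 2 ∧ pderiv ℂ 1 s = C Complex.I * s ^ 2 ∧ pderiv ℂ 2 s = 0 := by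
  have := fun i => (pderiv ℂ i).leibniz_of_mul_eq_one hs
  simp [Derivation.leibniz, this, pderiv_X, mul_comm]

lemma inv (e : S) (σ : S →ₐ[ℂ] S) (h : ∀ j, σ (X j) = X j + e * pderiv ℂ j (ph ^ 3)) (i : Fin 3) :
    σ (pderiv ℂ i (ph ^ 3)) = pderiv ℂ i (ph ^ 3) := by
  simp only [pderiv_pow] at h ⊢
  have hC : σ (C Complex.I) = C Complex.I := σ.commutes _
  have h0 := h 0
  have h1 := h 1
  have h2 := h 2
  rw [dph.1] at h0
  rw [dph.2.1] at h1
  rw [dph.2.2] at h2
  have h3 := congrArg σ hs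
  simp only [map_mul, map_sub, map_add, map_one, hC, h0, h1] at h3
  have h4 : σ (X 2 * s) = X 2 * s := by
    rw [map_mul, h2]
    linear_combination (X 2 * s) * h3 - (X 2 * σ s) * hs +
      (σ s * X 2 * s * e * (3 : ℕ) * ph ^ (3 - 1) * (1 + (X 2 * s) ^ 2)) * II
  have h5 : σ ph = ph := by
    have : σ ph = σ (X 0) + C Complex.I * σ (X 1) + σ (X 2) * σ (X 2 * s) := by
      simp only [ph, map_add, map_mul, map_pow, hC]; ring
    rw [this, h0, h1, h2, h4]
    conv_rhs => rw [ph]
    linear_combination (e * (3 : ℕ) * ph ^ (3 - 1) * (1 + (X 2 * s) ^ 2)) * II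
  fin_cases i <;> simp [dph, h4, h5, hC, -map_mul, map_mul σ (_ * _) _, map_mul σ 3,
    map_mul σ 2, map_mul σ (C _), map_ofNat]

lemma ex : SelfInv (ph ^ 3) ∧ ¬ IsNilpotent (Hes (ph ^ 3)) := by
  have c0 : constantCoeff ph = 0 := by simp [ph]
  have o : 2 ≤ (ph ^ 3).order := le_trans (by decide) (le_order_pow_of_constantCoeff_eq_zero 3 c0)
  refine ⟨⟨o, ⟨1, ?_⟩, fun i => ?_, fun i => ?_⟩, fun h => ?_⟩
  · ext i j
    simp [Hes, Derivation.leibniz, Derivation.leibniz_pow, c0]
  · have ha : HasSubst fun j => X j + pderiv ℂ j (ph ^ 3) :=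
      hasSubst_of_constantCoeff_zero fun j => by simp [c0]
    rw [← substAlgHom_apply ha, map_sub, inv 1 _ fun j => by rw [substAlgHom_X, one_mul], substAlgHom_X]
    simp
  · have ha : HasSubst fun j => X j - pderiv ℂ j (ph ^ 3) :=
      hasSubst_of_constantCoeff_zero fun j => by simp [c0]
    rw [← substAlgHom_apply ha, map_add, inv (-1) _ fun j => by
      rw [substAlgHom_X, neg_one_mul, sub_eq_add_neg], substAlgHom_X]
    simp
  · have h1 := (Matrix.isNilpotent_trace_of_isNilpotent h).eq_zero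
    have h2 : (Hes (ph ^ 3)).trace = 6 * ph ^ 2 * s := by
      simp only [Matrix.trace, Matrix.diag, Hes, Matrix.of_apply, Fin.sum_univ_three, pderiv_pow]
      have d2 : ∀ i, pderiv ℂ i (2 : S) = 0 := fun i => (pderiv ℂ i).map_natCast 2
      have d3 : ∀ i, pderiv ℂ i (3 : S) = 0 := fun i => (pderiv ℂ i).map_natCast 3
      simp [dph, ds, Derivation.leibniz, Derivation.leibniz_pow, pderiv_X, d2, d3]
      linear_combination (6 * ph * (1 + (X 2 * s) ^ 2) ^ 2 + 6 * ph ^ 2 * X 2 ^ 2 * s ^ 3) * II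
    rw [h2] at h1
    have h3 : ph ≠ 0 := fun e => by
      simpa [e] using congrArg constantCoeff dph.1
    have h4 : s ≠ 0 := fun e => by simpa [e] using hs
    have h5 : (6 : S) ≠ 0 := fun e => by
      simpa [map_ofNat] using congrArg constantCoeff e
    simp [h3, h4, h5] at h1

theorem result : (∃ (n : ℕ) (P : MvPowerSeries (Fin n) ℂ), 1 ≤ n ∧ SelfInv P ∧ ¬ IsNilpotent (Hes P)) ∧
    ∀ (n : ℕ) (p : MvPolynomial (Fin n) ℂ), SelfInv (p : MvPowerSeries (Fin n) ℂ) →
      IsNilpotent (Hes (p : MvPowerSeries (Fin n) ℂ)) := by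
  refine ⟨⟨3, ph ^ 3, by decide, ex⟩, fun n p ⟨_, _, _, h⟩ => ?_⟩
  have := (poly (fun i => MvPolynomial.pderiv i p) fun i => ?_).map
    (MvPolynomial.coeToMvPowerSeries.ringHom (σ := Fin n) (R := ℂ)).mapMatrix
  · rw [← Matrix.isNilpotent_transpose_iff]
    refine (congrArg IsNilpotent ?_).mp this
    ext1 i j
    simp [Hes, pderiv_coe]
  · apply MvPolynomial.coe_injective
    have h1 := h i
    rw [pderiv_coe, ← MvPolynomial.coe_X, ← MvPolynomial.coe_add, subst_coe, map_add,
      MvPolynomial.aeval_X, MvPolynomial.coe_X, pderiv_coe, sub_add, sub_eq_self, sub_eq_zero] at h1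
    rw [h1]
    have := MvPolynomial.comp_aeval_apply (fun j => MvPolynomial.X j - MvPolynomial.pderiv j p)
      (MvPolynomial.coeToMvPowerSeries.algHom ℂ) (MvPolynomial.pderiv i p)
    have e : ∀ a b : MvPolynomial (Fin n) ℂ, ((a - b : MvPolynomial (Fin n) ℂ) :
      MvPowerSeries (Fin n) ℂ) = a - b := map_sub MvPolynomial.coeToMvPowerSeries.ringHom
    simpa [pderiv_coe, e] using this

end Pool.Agent.Results.MP_e6e7b2_al.Ans
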